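import Pool.Agent.H51.MFT.Tri

/-!
# Subalgebras of triangular matrices containing the corner block: the family
-/

set_option autoImplicit false

open Module

namespace Pool.MFT

open Pool.MFQ Pool.MFL

/-- The corner block. -/
def Bk {N : ℕ} (i j : Fin N) : Prop := i.val < N / 2 ∧ N / 2 ≤ j.val

section

variable {𝔤 : Type} [LieRing 𝔤] [LieAlgebra ℂ 𝔤] {N : ℕ}

theorem lie_apply' {φ : 𝔤 →ₗ[ℂ] Matrix (Fin N) (Fin N) ℂ}
    (hl : ∀ x y, φ ⁅x, y⁆ = φ x * φ y - φ y * φ x) (x y : 𝔤) (i j : Fin N) :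
    φ ⁅x, y⁆ i j = ∑ k, φ x i k * φ y k j - ∑ k, φ y i k * φ x k j := by
  rw [hl, Matrix.sub_apply, Matrix.mul_apply, Matrix.mul_apply]

/-- The ideal of elements supported in the block. -/
def bId (φ : 𝔤 →ₗ[ℂ] Matrix (Fin N) (Fin N) ℂ)
    (hl : ∀ x y, φ ⁅x, y⁆ = φ x * φ y - φ y * φ x) (hu : ∀ x i j, j < i → φ x i j = 0) :
    LieIdeal ℂ 𝔤 where
  carrier := {x | ∀ i j, ¬ Bk i j → φ x i j = 0}
  add_mem' := by
    intro x y hx hy i j h
    rw [map_add, Matrix.add_apply, hx i j h, hy i j h, add_zero]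
  zero_mem' := by
    intro i j _
    rw [map_zero, Matrix.zero_apply]
  smul_mem' := by
    intro c x hx i j h
    rw [map_smul, Matrix.smul_apply, hx i j h, smul_zero]
  lie_mem := by
    intro x m hm i j h
    rw [lie_apply' hl, Finset.sum_eq_zero, Finset.sum_eq_zero, sub_zero]
    · intro k _
      by_cases hk : Bk i k
      · have : j < k := by
          by_contra h1
          exact h ⟨hk.1, le_trans hk.2 (by simpa using h1)⟩
        rw [hu x k j this, mul_zero]
      · rw [hm i k hk, zero_mul]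
    · intro k _
      by_cases hk : Bk k j
      · have : k < i := by
          by_contra h1
          refine h ⟨lt_of_le_of_lt ?_ hk.1, hk.2⟩
          simpa using h1
        rw [hu x i k this, zero_mul]
      · rw [hm k j hk, mul_zero]

theorem mem_bId {φ : 𝔤 →ₗ[ℂ] Matrix (Fin N) (Fin N) ℂ}
    {hl : ∀ x y, φ ⁅x, y⁆ = φ x * φ y - φ y * φ x} {hu : ∀ x i j, j < i → φ x i j = 0}
    {x : 𝔤} : x ∈ bId φ hl hu ↔ ∀ i j, ¬ Bk i j → φ x i j = 0 := Iff.rfl

theorem bId_ab {φ : 𝔤 →ₗ[ℂ] Matrix (Fin N) (Fin N) ℂ} (hi : Function.Injective φ)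
    (hl : ∀ x y, φ ⁅x, y⁆ = φ x * φ y - φ y * φ x)
    (hu : ∀ x i j, j < i → φ x i j = 0) : IsAb (bId φ hl hu) := by
  intro x hx y hy
  apply hi
  rw [map_zero]
  have key : ∀ x ∈ bId φ hl hu, ∀ y ∈ bId φ hl hu, ∀ i j, ∑ k, φ x i k * φ y k j = 0 := by
    intro x hx y hy i j
    refine Finset.sum_eq_zero fun k _ => ?_
    by_cases hk : Bk i k
    · have : ¬ Bk k j := fun h => absurd h.1 (not_lt.2 hk.2)
      rw [hy k j this, mul_zero]
    · rw [hx i k hk, zero_mul]
  ext i j
  rw [lie_apply' hl, key x hx y hy, key y hy x hx, sub_zero, Matrix.zero_apply]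

/-- the functional on a family of elements in the natural numbering -/
noncomputable def Yf (ξ : Dual ℂ 𝔤) (e : Fin N → Fin N → 𝔤) (a b : ℕ) : ℂ :=
  if h : a < N ∧ b < N then ξ (e ⟨a, h.1⟩ (Fin.rev ⟨b, h.2⟩)) else 0

theorem bracket {φ : 𝔤 →ₗ[ℂ] Matrix (Fin N) (Fin N) ℂ} (hi : Function.Injective φ)
    (hl : ∀ x y, φ ⁅x, y⁆ = φ x * φ y - φ y * φ x)
    (hu : ∀ x i j, j < i → φ x i j = 0) {e : Fin N → Fin N → 𝔤}
    (he : ∀ i j, Bk i j → φ (e i j) = Matrix.single i j 1) (he' : ∀ i j, ¬ Bk i j → e i j = 0)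
    (x : 𝔤) {i j : Fin N} (h : Bk i j) :
    ⁅x, e i j⁆ = ∑ k, φ x k i • e k j - ∑ l, φ x j l • e i l := by
  classical
  apply hi
  have hes : ∀ i j, φ (e i j) = if Bk i j then Matrix.single i j 1 else 0 := by
    intro i j
    by_cases hb : Bk i j
    · rw [if_pos hb, he i j hb]
    · rw [if_neg hb, he' i j hb, map_zero]
  ext r c
  rw [lie_apply' hl, he i j h, map_sub, map_sum, map_sum, Matrix.sub_apply,
    Matrix.sum_apply, Matrix.sum_apply]
  simp only [map_smul, Matrix.smul_apply, hes, smul_eq_mul]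
  congr 1
  · have h1 : ∀ k, φ x r k * Matrix.single i j (1 : ℂ) k c = if k = i ∧ c = j then φ x r i else 0 := by
      intro k
      by_cases hk : k = i
      · subst hk
        by_cases hc : c = j
        · subst hc
          simp
        · rw [Matrix.single_apply_of_col_ne _ _ (Ne.symm hc), if_neg (by simp [hc]), mul_zero]
      · rw [Matrix.single_apply_of_row_ne (Ne.symm hk), if_neg (by simp [hk]), mul_zero]
    have h2 : ∀ k, φ x k i * (if Bk k j then Matrix.single k j (1 : ℂ) else 0) r c =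
        if k = r ∧ c = j then φ x r i else 0 := by
      intro k
      by_cases hk : k = r
      · subst hk
        by_cases hc : c = j
        · subst hc
          by_cases hb : Bk k c
          · simp [hb]
          · have h3 : i < k := by
              by_contra h1
              refine hb ⟨lt_of_le_of_lt ?_ h.1, h.2⟩
              simpa using h1
            rw [hu x k i h3]
            simp
        · rw [if_neg (by simp [hc] : ¬ (k = k ∧ c = j))]
          by_cases hb : Bk k j
          · rw [if_pos hb, Matrix.single_apply_of_col_ne _ _ (Ne.symm hc), mul_zero]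
          · rw [if_neg hb, Matrix.zero_apply, mul_zero]
      · rw [if_neg (by simp [hk] : ¬ (k = r ∧ c = j))]
        by_cases hb : Bk k j
        · rw [if_pos hb, Matrix.single_apply_of_row_ne hk, mul_zero]
        · rw [if_neg hb, Matrix.zero_apply, mul_zero]
    rw [Finset.sum_congr rfl fun k _ => h1 k, Finset.sum_congr rfl fun k _ => h2 k]
    by_cases hc : c = j
    · simp [hc]
    · simp [hc]
  · have h1 : ∀ k, Matrix.single i j (1 : ℂ) r k * φ x k c = if k = j ∧ r = i then φ x j c else 0 := by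
      intro k
      by_cases hk : k = j
      · subst hk
        by_cases hc : r = i
        · subst hc
          simp
        · rw [Matrix.single_apply_of_row_ne (Ne.symm hc), if_neg (by simp [hc]), zero_mul]
      · rw [Matrix.single_apply_of_col_ne _ _ (Ne.symm hk), if_neg (by simp [hk]), zero_mul]
    have h2 : ∀ k, φ x j k * (if Bk i k then Matrix.single i k (1 : ℂ) else 0) r c =
        if k = c ∧ r = i then φ x j c else 0 := by
      intro k
      by_cases hk : k = c
      · subst hk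
        by_cases hc : r = i
        · subst hc
          by_cases hb : Bk r k
          · simp [hb]
          · have h3 : k < j := by
              by_contra h1
              exact hb ⟨h.1, le_trans h.2 (by simpa using h1)⟩
            rw [hu x j k h3]
            simp
        · rw [if_neg (by simp [hc] : ¬ (k = k ∧ r = i))]
          by_cases hb : Bk i k
          · rw [if_pos hb, Matrix.single_apply_of_row_ne (Ne.symm hc), mul_zero]
          · rw [if_neg hb, Matrix.zero_apply, mul_zero]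
      · rw [if_neg (by simp [hk] : ¬ (k = c ∧ r = i))]
        by_cases hb : Bk i k
        · rw [if_pos hb, Matrix.single_apply_of_col_ne _ _ hk, mul_zero]
        · rw [if_neg hb, Matrix.zero_apply, mul_zero]
    rw [Finset.sum_congr rfl fun k _ => h1 k, Finset.sum_congr rfl fun k _ => h2 k]
    by_cases hc : r = i
    · simp [hc]
    · simp [hc]

theorem Yf_eq (ξ : Dual ℂ 𝔤) (e : Fin N → Fin N → 𝔤) (a b : Fin N) :
    Yf ξ e a b = ξ (e a (Fin.rev b)) := by
  unfold Yf
  rw [dif_pos ⟨a.2, b.2⟩]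

/-- A strictly triangular element of `W_ξ` lies in the block. -/
theorem mem_of_strict {φ : 𝔤 →ₗ[ℂ] Matrix (Fin N) (Fin N) ℂ} (hi : Function.Injective φ)
    (hl : ∀ x y, φ ⁅x, y⁆ = φ x * φ y - φ y * φ x)
    (hu : ∀ x i j, j < i → φ x i j = 0) {e : Fin N → Fin N → 𝔤}
    (he : ∀ i j, Bk i j → φ (e i j) = Matrix.single i j 1) (he' : ∀ i j, ¬ Bk i j → e i j = 0)
    {ξ : Dual ℂ 𝔤}
    (hY : ∀ k ≤ N / 2, (Matrix.of fun a b : Fin k => Yf ξ e a b).det ≠ 0)
    {x : 𝔤} (hx : ∀ v ∈ bId φ hl hu, ξ ⁅x, v⁆ = 0) (hd : ∀ i, φ x i i = 0) :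
    x ∈ bId φ hl hu := by
  -- the two blocks
  let U : ℕ → ℕ → ℂ := fun a k =>
    if h : k < N ∧ a < N then φ x ⟨k, h.1⟩ ⟨a, h.2⟩ else 0
  let W : ℕ → ℕ → ℂ := fun b l =>
    if h : b < N ∧ l < N then φ x (Fin.rev ⟨b, h.1⟩) (Fin.rev ⟨l, h.2⟩) else 0
  have hU : ∀ a k : Fin N, U a k = φ x k a := by
    intro a k
    show (if h : (k : ℕ) < N ∧ (a : ℕ) < N then φ x ⟨k, h.1⟩ ⟨a, h.2⟩ else 0) = _
    rw [dif_pos ⟨k.2, a.2⟩]
  have hW : ∀ b l : Fin N, W b l = φ x (Fin.rev b) (Fin.rev l) := by
    intro b l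
    show (if h : (b : ℕ) < N ∧ (l : ℕ) < N then φ x (Fin.rev ⟨b, h.1⟩) (Fin.rev ⟨l, h.2⟩)
      else 0) = _
    rw [dif_pos ⟨b.2, l.2⟩]
  obtain ⟨h1, h2⟩ := tla (N / 2) (N - N / 2) (Yf ξ e) U W (by omega) (by omega) hY (by
    intro a ha b hb
    have haN : a < N := by omega
    have hbN : b < N := by omega
    set i : Fin N := ⟨a, haN⟩ with hidef
    set b' : Fin N := ⟨b, hbN⟩ with hbdef
    have hbk : Bk i (Fin.rev b') := by
      refine ⟨ha, ?_⟩
      rw [Fin.val_rev]
      show N / 2 ≤ N - (b + 1)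
      omega
    have hmem : e i (Fin.rev b') ∈ bId φ hl hu := by
      intro r c hrc
      rw [he _ _ hbk]
      by_cases h3 : i = r
      · by_cases h4 : Fin.rev b' = c
        · subst h3
          subst h4
          exact absurd hbk hrc
        · exact Matrix.single_apply_of_col_ne _ _ h4 _
      · exact Matrix.single_apply_of_row_ne h3 _ _ _
    have h3 := hx _ hmem
    rw [bracket hi hl hu he he' x hbk, map_sub, map_sum, map_sum, sub_eq_zero] at h3
    simp only [map_smul, smul_eq_mul] at h3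
    have h4 : ∑ k ∈ Finset.range a, U a k * Yf ξ e k b =
        ∑ k : Fin N, φ x k i * ξ (e k (Fin.rev b')) := by
      rw [← Fin.sum_univ_eq_sum_range (fun k => U a k * Yf ξ e k b) a]
      have h5 : ∑ k : Fin N, φ x k i * ξ (e k (Fin.rev b')) =
          ∑ k ∈ Finset.range N, U a k * Yf ξ e k b := by
        rw [← Fin.sum_univ_eq_sum_range (fun k => U a k * Yf ξ e k b) N]
        refine Finset.sum_congr rfl fun k _ => ?_
        have h6 := hU i k
        have h7 := Yf_eq ξ e k b'
        rw [← h6, ← h7]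
      rw [h5, Fin.sum_univ_eq_sum_range (fun k => U a k * Yf ξ e k b) a]
      refine Finset.sum_subset (fun k hk => ?_) fun k hk hk' => ?_
      · rw [Finset.mem_range] at hk ⊢
        omega
      · rw [Finset.mem_range] at hk
        rw [Finset.mem_range, not_lt] at hk'
        have h6 := hU i ⟨k, hk⟩
        have h7 : φ x ⟨k, hk⟩ i = 0 := by
          rcases eq_or_lt_of_le hk' with h8 | h8
          · have : (⟨k, hk⟩ : Fin N) = i := Fin.ext h8.symm
            rw [this]
            exact hd i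
          · exact hu x _ _ h8
        have h8 : U a k = 0 := by
          rw [← h7]
          exact h6
        rw [h8, zero_mul]
    have h5 : ∑ l ∈ Finset.range b, W b l * Yf ξ e a l =
        ∑ l : Fin N, φ x (Fin.rev b') l * ξ (e i l) := by
      have h5 : ∑ l : Fin N, φ x (Fin.rev b') l * ξ (e i l) =
          ∑ l ∈ Finset.range N, W b l * Yf ξ e a l := by
        rw [← Fin.sum_univ_eq_sum_range (fun l => W b l * Yf ξ e a l) N,
          ← Equiv.sum_comp Fin.revPerm]
        refine Finset.sum_congr rfl fun l _ => ?_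
        have h6 := hW b' l
        have h7 := Yf_eq ξ e i l
        rw [Fin.revPerm_apply, ← h6, ← h7]
      rw [h5]
      refine Finset.sum_subset (fun k hk => ?_) fun l hl' hl'' => ?_
      · rw [Finset.mem_range] at hk ⊢
        omega
      · rw [Finset.mem_range] at hl'
        rw [Finset.mem_range, not_lt] at hl''
        have h6 := hW b' ⟨l, hl'⟩
        have h7 : φ x (Fin.rev b') (Fin.rev ⟨l, hl'⟩) = 0 := by
          rcases eq_or_lt_of_le hl'' with h8 | h8
          · have : (⟨l, hl'⟩ : Fin N) = b' := Fin.ext h8.symm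
            rw [this]
            exact hd _
          · exact hu x _ _ (Fin.rev_lt_rev.2 h8)
        have h8 : W b l = 0 := by
          rw [← h7]
          exact h6
        rw [h8, zero_mul]
    rw [h4, h5, h3])
  intro r c hrc
  rcases lt_trichotomy c r with h3 | h3 | h3
  · exact hu x r c h3
  · rw [h3]
    exact hd r
  · by_cases hc : c.val < N / 2
    · have h4 := h1 c hc r h3
      rw [hU] at h4
      exact h4
    · have hr : N / 2 ≤ r.val := by
        by_contra h4
        exact hrc ⟨not_le.1 h4, not_lt.1 hc⟩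
      have h4 := h2 (Fin.rev r) (by rw [Fin.val_rev]; omega) (Fin.rev c) (Fin.rev_lt_rev.2 h3)
      rw [hW, Fin.rev_rev, Fin.rev_rev] at h4
      exact h4

/-- For `ξ` with nonzero corner minors the form vanishes on `W_ξ`. -/
theorem form_zero {φ : 𝔤 →ₗ[ℂ] Matrix (Fin N) (Fin N) ℂ} (hi : Function.Injective φ)
    (hl : ∀ x y, φ ⁅x, y⁆ = φ x * φ y - φ y * φ x)
    (hu : ∀ x i j, j < i → φ x i j = 0) {e : Fin N → Fin N → 𝔤}
    (he : ∀ i j, Bk i j → φ (e i j) = Matrix.single i j 1) (he' : ∀ i j, ¬ Bk i j → e i j = 0)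
    {ξ : Dual ℂ 𝔤}
    (hY : ∀ k ≤ N / 2, (Matrix.of fun a b : Fin k => Yf ξ e a b).det ≠ 0)
    {x y : 𝔤} (hx : ∀ v ∈ bId φ hl hu, ξ ⁅x, v⁆ = 0) (hy : ∀ v ∈ bId φ hl hu, ξ ⁅y, v⁆ = 0) :
    ξ ⁅x, y⁆ = 0 := by
  classical
  have hab := bId_ab hi hl hu
  -- brackets of elements of `W_ξ` lie in the ideal
  have hbr : ∀ x y : 𝔤, (∀ v ∈ bId φ hl hu, ξ ⁅x, v⁆ = 0) →
      (∀ v ∈ bId φ hl hu, ξ ⁅y, v⁆ = 0) → ⁅x, y⁆ ∈ bId φ hl hu := by
    intro x y hx hy
    refine mem_of_strict hi hl hu he he' hY (fun v hv => ?_) fun i => ?_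
    · rw [lie_lie, map_sub, hx _ (lie_mem_right ℂ 𝔤 _ y v hv),
        hy _ (lie_mem_right ℂ 𝔤 _ x v hv), sub_zero]
    · rw [lie_apply' hl, sub_eq_zero]
      refine Finset.sum_congr rfl fun k _ => ?_
      rcases lt_trichotomy k i with h3 | h3 | h3
      · rw [hu x i k h3, hu y i k h3]
        simp
      · rw [h3, mul_comm]
      · rw [hu y k i h3, hu x k i h3]
        simp
  -- the splitting
  have hsp : ∀ x : 𝔤, ∃ v ∈ bId φ hl hu, ∀ i j, Bk i j → φ (x - v) i j = 0 := by
    intro x
    refine ⟨∑ i, ∑ j, φ x i j • e i j, ?_, ?_⟩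
    · refine Submodule.sum_mem _ fun i _ => Submodule.sum_mem _ fun j _ =>
        Submodule.smul_mem _ _ ?_
      by_cases hb : Bk i j
      · intro r c hrc
        rw [he _ _ hb]
        by_cases h3 : i = r
        · by_cases h4 : j = c
          · subst h3
            subst h4
            exact absurd hb hrc
          · exact Matrix.single_apply_of_col_ne _ _ h4 _
        · exact Matrix.single_apply_of_row_ne h3 _ _ _
      · rw [he' i j hb]
        exact Submodule.zero_mem _
    · intro i j hb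
      rw [map_sub, Matrix.sub_apply, map_sum, Matrix.sum_apply, sub_eq_zero]
      have h3 : ∀ r, φ (∑ c, φ x r c • e r c) i j = if r = i then φ x i j else 0 := by
        intro r
        rw [map_sum, Matrix.sum_apply]
        by_cases hr : r = i
        · subst hr
          rw [if_pos rfl, Finset.sum_eq_single j]
          · rw [map_smul, Matrix.smul_apply, he _ _ hb, Matrix.single_apply_same, smul_eq_mul,
              mul_one]
          · intro c _ hc
            rw [map_smul, Matrix.smul_apply]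
            by_cases hb' : Bk r c
            · rw [he _ _ hb', Matrix.single_apply_of_col_ne _ _ hc, smul_zero]
            · rw [he' _ _ hb', map_zero, Matrix.zero_apply, smul_zero]
          · intro h
            exact absurd (Finset.mem_univ j) h
        · rw [if_neg hr]
          refine Finset.sum_eq_zero fun c _ => ?_
          rw [map_smul, Matrix.smul_apply]
          by_cases hb' : Bk r c
          · rw [he _ _ hb', Matrix.single_apply_of_row_ne hr, smul_zero]
          · rw [he' _ _ hb', map_zero, Matrix.zero_apply, smul_zero]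
      rw [Finset.sum_congr rfl fun r _ => h3 r]
      simp
  obtain ⟨v, hv, hxv⟩ := hsp x
  obtain ⟨w, hw, hyw⟩ := hsp y
  have hx' : ∀ u ∈ bId φ hl hu, ξ ⁅x - v, u⁆ = 0 := by
    intro u hu'
    rw [sub_lie, hab v hv u hu', sub_zero]
    exact hx u hu'
  have hy' : ∀ u ∈ bId φ hl hu, ξ ⁅y - w, u⁆ = 0 := by
    intro u hu'
    rw [sub_lie, hab w hw u hu', sub_zero]
    exact hy u hu'
  have h0 : ⁅x - v, y - w⁆ = 0 := by
    apply hi
    rw [map_zero]
    ext i j
    rw [Matrix.zero_apply]
    by_cases hb : Bk i j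
    · have h3 : ∀ a b : 𝔤, (∀ i j, Bk i j → φ a i j = 0) → (∀ i j, Bk i j → φ b i j = 0) →
          ∑ k, φ a i k * φ b k j = 0 := by
        intro a b ha hb'
        refine Finset.sum_eq_zero fun k _ => ?_
        by_cases hk : k.val < N / 2
        · rw [hb' k j ⟨hk, hb.2⟩, mul_zero]
        · rw [ha i k ⟨hb.1, not_lt.1 hk⟩, zero_mul]
      rw [lie_apply' hl, h3 _ _ hxv hyw, h3 _ _ hyw hxv, sub_zero]
    · exact hbr _ _ hx' hy' i j hb
  have h1 : ⁅x, y⁆ = ⁅x - v, y - w⁆ + ⁅x - v, w⁆ - ⁅y, v⁆ := by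
    have : ⁅y, v⁆ = - ⁅v, y⁆ := (lie_skew y v).symm
    rw [this, sub_lie, lie_sub, lie_sub, sub_lie, hab v hv w hw]
    abel
  rw [h1, map_sub, map_add, h0, map_zero, hx' w hw, hy v hv]
  simp

end

/-- FAM: the family satisfies condition (C). -/
theorem fam (𝔤 : Type) [LieRing 𝔤] [LieAlgebra ℂ 𝔤] [FiniteDimensional ℂ 𝔤] (N : ℕ)
    (φ : 𝔤 →ₗ[ℂ] Matrix (Fin N) (Fin N) ℂ) (hi : Function.Injective φ)
    (hl : ∀ x y, φ ⁅x, y⁆ = φ x * φ y - φ y * φ x)
    (hu : ∀ x (i j : Fin N), j < i → φ x i j = 0)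
    (hb : ∀ i j : Fin N, i.val < N / 2 → N / 2 ≤ j.val → ∃ x, φ x = Matrix.single i j 1) :
    ∃ V : LieIdeal ℂ 𝔤, IsAb V ∧ CondC V := by
  classical
  refine ⟨bId φ hl hu, bId_ab hi hl hu, ?_⟩
  choose! f hf using hb
  let e : Fin N → Fin N → 𝔤 := fun i j => if Bk i j then f i j else 0
  have he : ∀ i j, Bk i j → φ (e i j) = Matrix.single i j 1 := by
    intro i j h
    show φ (if Bk i j then f i j else 0) = _
    rw [if_pos h]
    exact hf i j h.1 h.2
  have he' : ∀ i j, ¬ Bk i j → e i j = 0 := fun i j h => if_neg h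
  -- the antidiagonal functional
  let ξ₀ : Dual ℂ 𝔤 := ∑ i : Fin N, (Matrix.entryLinearMap ℂ ℂ i (Fin.rev i)) ∘ₗ φ
  have hξ₀ : ∀ x, ξ₀ x = ∑ i : Fin N, φ x i (Fin.rev i) := by
    intro x
    show (∑ i : Fin N, (Matrix.entryLinearMap ℂ ℂ i (Fin.rev i)) ∘ₗ φ) x = _
    rw [LinearMap.sum_apply]
    rfl
  obtain ⟨η, hη⟩ := geo 𝔤 (bId φ hl hu) ξ₀
  have hdet : ∀ k ≤ N / 2, ∀ᶠ t in nhdsWithin (0 : ℂ) {0}ᶜ,
      (Matrix.of fun a b : Fin k => Yf (ξ₀ + t • η) e a b).det ≠ 0 := by
    intro k hk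
    have hc : Continuous (fun t : ℂ => (Matrix.of fun a b : Fin k =>
        Yf (ξ₀ + t • η) e a b).det) := by
      refine Continuous.matrix_det ?_
      refine continuous_matrix fun a b => ?_
      have : (fun t : ℂ => (Matrix.of fun a b : Fin k => Yf (ξ₀ + t • η) e a b) a b) =
          fun t : ℂ => Yf ξ₀ e a b + t * Yf η e a b := by
        funext t
        show Yf (ξ₀ + t • η) e a b = _
        unfold Yf
        split_ifs
        · rfl
        · simp
      rw [this]
      fun_prop
    have h0 : (Matrix.of fun a b : Fin k => Yf (ξ₀ + (0 : ℂ) • η) e a b).det ≠ 0 := by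
      have : (Matrix.of fun a b : Fin k => Yf (ξ₀ + (0 : ℂ) • η) e a b) = 1 := by
        ext a b
        have haN : (a : ℕ) < N := by have := a.2; omega
        have hbN : (b : ℕ) < N := by have := b.2; omega
        have hbk : Bk (⟨a, haN⟩ : Fin N) (Fin.rev ⟨b, hbN⟩) := by
          refine ⟨lt_of_lt_of_le a.2 hk, ?_⟩
          rw [Fin.val_rev]
          show N / 2 ≤ N - ((b : ℕ) + 1)
          have := b.2
          omega
        rw [zero_smul, add_zero]
        show Yf ξ₀ e a b = _
        have h1 := Yf_eq ξ₀ e ⟨a, haN⟩ ⟨b, hbN⟩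
        rw [show Yf ξ₀ e a b = _ from h1, hξ₀]
        simp only [he _ _ hbk]
        rw [Finset.sum_eq_single (⟨a, haN⟩ : Fin N)]
        · by_cases hab : a = b
          · subst hab
            rw [Matrix.one_apply_eq, Matrix.single_apply_same]
          · rw [Matrix.one_apply_ne hab, Matrix.single_apply_of_col_ne]
            intro h
            apply hab
            have h2 := Fin.rev_injective h
            have h3 : (b : ℕ) = a := congrArg (fun z : Fin N => z.val) h2
            exact (Fin.ext h3).symm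
        · intro c _ hc
          exact Matrix.single_apply_of_row_ne (Ne.symm hc) _ _ _
        · intro h
          exact absurd (Finset.mem_univ _) h
      rw [this, Matrix.det_one]
      exact one_ne_zero
    have h1 := hc.continuousAt.eventually_ne h0
    exact h1.filter_mono nhdsWithin_le_nhds
  have hdet' : ∀ᶠ t in nhdsWithin (0 : ℂ) {0}ᶜ, ∀ k ∈ Finset.range (N / 2 + 1),
      (Matrix.of fun a b : Fin k => Yf (ξ₀ + t • η) e a b).det ≠ 0 := by
    rw [Filter.eventually_all_finset]
    intro k hk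
    exact hdet k (by rw [Finset.mem_range] at hk; omega)
  obtain ⟨t, ht1, ht2⟩ := (hη.and hdet').exists
  refine lgx 𝔤 (bId φ hl hu) (bId_ab hi hl hu) ⟨ξ₀ + t • η, ht1, fun x y hx hy => ?_⟩
  exact form_zero hi hl hu he he' (fun k hk => ht2 k (by rw [Finset.mem_range]; omega)) hx hy

end Pool.MFT
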