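import Pool.Agent.H51.MFL.All

/-!
# Subalgebras of triangular matrices containing the corner block
-/

set_option autoImplicit false

open Module

namespace Pool.MFT

open Pool.MFQ Pool.MFL

/-- TLA: the triangular lemma. -/
theorem tla (p q : ℕ) (Y U W : ℕ → ℕ → ℂ) (hpq : p ≤ q) (hqp : q ≤ p + 1)
    (hY : ∀ k ≤ p, (Matrix.of fun a b : Fin k => Y a b).det ≠ 0)
    (hr : ∀ a < p, ∀ b < q, ∑ k ∈ Finset.range a, U a k * Y k b =
      ∑ l ∈ Finset.range b, W b l * Y a l) :
    (∀ a < p, ∀ k < a, U a k = 0) ∧ (∀ b < q, ∀ l < b, W b l = 0) := by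
  have key : ∀ n, (n < p → ∀ k < n, U n k = 0) ∧ (n < q → ∀ l < n, W n l = 0) := by
    intro n
    induction n using Nat.strong_induction_on with
    | _ n ih =>
      refine ⟨fun hn => ?_, fun hn => ?_⟩
      · have h1 := hY n hn.le
        have h2 : Matrix.vecMul (fun k : Fin n => U n k) (Matrix.of fun a b : Fin n => Y a b) =
            0 := by
          funext b
          have h3 := hr n hn b (by have := b.2; omega)
          have h4 : ∑ l ∈ Finset.range (b : ℕ), W b l * Y n l = 0 := by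
            refine Finset.sum_eq_zero fun l hl => ?_
            rw [(ih b b.2).2 (by have := b.2; omega) l (Finset.mem_range.1 hl), zero_mul]
          rw [h4, ← Fin.sum_univ_eq_sum_range (fun k => U n k * Y k b) n] at h3
          simp only [Matrix.vecMul, dotProduct, Matrix.of_apply, Pi.zero_apply]
          exact h3
        have h3 := Matrix.eq_zero_of_vecMul_eq_zero h1 h2
        intro k hk
        exact congrFun h3 ⟨k, hk⟩
      · have hn' : n ≤ p := by omega
        have h1 := hY n hn'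
        have h2 : Matrix.mulVec (Matrix.of fun a b : Fin n => Y a b) (fun l : Fin n => W n l) =
            0 := by
          funext a
          have h3 := hr a (by have := a.2; omega) n hn
          have h4 : ∑ k ∈ Finset.range (a : ℕ), U a k * Y k n = 0 := by
            refine Finset.sum_eq_zero fun k hk => ?_
            rw [(ih a a.2).1 (by have := a.2; omega) k (Finset.mem_range.1 hk), zero_mul]
          rw [h4, ← Fin.sum_univ_eq_sum_range (fun l => W n l * Y a l) n] at h3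
          simp only [Matrix.mulVec, dotProduct, Matrix.of_apply, Pi.zero_apply]
          rw [h3]
          exact Finset.sum_congr rfl fun l _ => mul_comm _ _
        have h3 := Matrix.eq_zero_of_mulVec_eq_zero h1 h2
        intro l hl
        exact congrFun h3 ⟨l, hl⟩
  exact ⟨fun a ha => (key a).1 ha, fun b hb => (key b).2 hb⟩

/-- LGX: condition (C) from one generic `ξ` with `V + stab ξ` maximal isotropic. -/
theorem lgx (𝔤 : Type) [LieRing 𝔤] [LieAlgebra ℂ 𝔤] [FiniteDimensional ℂ 𝔤]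
    (V : LieIdeal ℂ 𝔤) (hV : IsAb V)
    (h : ∃ ξ : Dual ℂ 𝔤, Gen V ξ ∧ ∀ x y : 𝔤, (∀ v ∈ V, ξ ⁅x, v⁆ = 0) →
      (∀ v ∈ V, ξ ⁅y, v⁆ = 0) → ξ ⁅x, y⁆ = 0) : CondC V := by
  obtain ⟨ξ, hξ, h⟩ := h
  refine t_lag t_VRK 𝔤 V hV ⟨ξ, hξ, ?_⟩
  have h1 := t_VRK 𝔤 V ξ (stab ξ ⊔ V.toSubmodule) (fun y => by
    rw [t_stv 𝔤 V hV ξ y]
    exact ⟨fun h => h.1, fun h' => ⟨h', fun z hz => h y z h' hz⟩⟩)
  have h2 := Submodule.finrank_sup_add_finrank_inf_eq (stab ξ) V.toSubmodule
  omega

/-- GEO: near every point there are generic points. -/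
theorem geo (𝔤 : Type) [LieRing 𝔤] [LieAlgebra ℂ 𝔤] [FiniteDimensional ℂ 𝔤]
    (V : LieIdeal ℂ 𝔤) (ξ₀ : Dual ℂ 𝔤) :
    ∃ η : Dual ℂ 𝔤, ∀ᶠ t in nhdsWithin (0 : ℂ) {0}ᶜ, Gen V (ξ₀ + t • η) := by
  obtain ⟨s, q, b, hb⟩ := t_bas 𝔤 V
  obtain ⟨b₀, hb₀⟩ := t_dir 𝔤 V s q b ((dualC b).symm ξ₀)
  refine ⟨dualC b b₀, ?_⟩
  filter_upwards [hb₀] with t ht
  have h1 : dualC b (fun z => (dualC b).symm ξ₀ z + t * b₀ z) = ξ₀ + t • dualC b b₀ := by
    have : (fun z => (dualC b).symm ξ₀ z + t * b₀ z) = (dualC b).symm ξ₀ + t • b₀ := by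
      funext z
      rfl
    rw [this, map_add, map_smul, LinearEquiv.apply_symm_apply]
  rw [h1] at ht
  exact ht

end Pool.MFT
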